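import Mathlib
import Pool.Agent.R125.PatB

/-!
# MP_956764, Q1: the set `{A_v(0,d) : d ≥ 1}` for every pattern `v`

The definitions (`binExp`, `leadZeros`, `trailZeros`, `padded`, `occ`, `eV`, `AV`) are in
`Pool/Agent/R125/PatB.lean`.
-/

namespace Pool.Agent.Results.MP_956764_co.ValueSetZero

open R125P

/-- **MP_956764, Q1, all patterns.** -/
theorem result (v : List ℕ) (hv : v ≠ []) (h01 : ∀ x ∈ v, x = 0 ∨ x = 1) :
    (1 ∈ v → {l | ∃ d, 1 ≤ d ∧ AV v 0 d = l} =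
      {l | l % 2 = 1} ∪ {l | ∃ b l', 1 ≤ b ∧ b ≤ trailZeros v ∧ l' % 2 = 1 ∧
        l' < 2 ^ (v.length - trailZeros v) ∧ l = 2 ^ b * l'}) ∧
    (1 ∉ v → {l | ∃ d, 1 ≤ d ∧ AV v 0 d = l} =
      {l | l % 2 = 1 ∧ l < 2 ^ v.length} ∪ {l | ∃ b, 1 ≤ b ∧ b ≤ v.length ∧ l = 2 ^ b}) := by
  have key : ∀ l, (∃ d, 1 ≤ d ∧ AV v 0 d = l) ↔ ∃ d, 0 < d ∧ IsFirst v.length (val v) d l := by
    intro l
    constructor
    · rintro ⟨d, hd, h⟩
      exact ⟨d, hd, (AV_zero_iff hv h01 hd l).1 h⟩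
    · rintro ⟨d, hd, h⟩
      exact ⟨d, hd, (AV_zero_iff hv h01 hd l).2 h⟩
  constructor
  · intro h1
    obtain ⟨o, ho, hval, hlt, hol⟩ := val_split h01 h1
    ext l
    simp only [Set.mem_ofPred_eq, Set.mem_union]
    rw [key]
    have hlen : v.length = (v.length - trailZeros v) + trailZeros v := by omega
    have := values_pos (r' := v.length - trailZeros v) (s := trailZeros v) (o := o) (by omega) ho hol l
    rw [← hlen, ← hval] at this
    exact this
  · intro h1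
    ext l
    simp only [Set.mem_ofPred_eq, Set.mem_union]
    rw [key, val_zero h01 h1]
    exact values_zero (List.length_pos_of_ne_nil hv) l

end Pool.Agent.Results.MP_956764_co.ValueSetZero
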